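import Pool.Agent.Lib.MP_b7b920_al_CT.Defs

set_option autoImplicit false

/-!
# Conversion of Lemma D to the form `LDHyp` (MP_b7b920_al, helper6)
-/

namespace Pool.MP_b7b920_al.CT

open Module

/-- Lemma D for finite `l`-groups acting faithfully on a lattice. -/
def LDLattice : Prop :=
  ∀ (l : ℕ) (_ : l.Prime) (P : Type) [Group P] [Finite P] (_ : IsPGroup l P) (L : Type)
    [AddCommGroup L] [Module.Free ℤ L] [Module.Finite ℤ L] [DistribMulAction P L]
    (_ : ∀ g : P, (∀ v : L, g • v = v) → g = 1),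
    Nat.card (P →* Multiplicative (ZMod l)) ^ (l - 1) ≤ l ^ finrank ℤ L

variable {Γ L : Type} [Group Γ] [AddCommGroup L] [Module.Free ℤ L]
  [Module.Finite ℤ L] [DistribMulAction Γ L] (ι : Multiplicative L →* Γ)

theorem ldHyp_of_lattice (hD : LDLattice) (hC : Cryst Γ L ι) : LDHyp Γ L ι := by
  intro l hl X hTX hX
  obtain ⟨k, hk⟩ := hX
  haveI hnorm : ι.range.Normal := hC.normal_range
  haveI hNn : (ι.range.subgroupOf X).Normal := inferInstance
  haveI := hC.fin
  haveI hNf : (ι.range.subgroupOf X).FiniteIndex := inferInstance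
  have hidx : (ι.range.subgroupOf X).index = l ^ k := hk
  haveI : Finite (X ⧸ ι.range.subgroupOf X) := inferInstance
  haveI : NeZero l := ⟨hl.ne_zero⟩
  have hP : IsPGroup l (X ⧸ ι.range.subgroupOf X) := by
    apply IsPGroup.of_card (n := k)
    rw [← hidx]
    rfl
  -- the action of the quotient
  let φ : X →* AddMonoid.End L := DistribMulAction.toAddMonoidEnd X L
  have hφ : ∀ x ∈ ι.range.subgroupOf X, φ x = 1 := by
    intro x hx
    obtain ⟨v, hv⟩ := Subgroup.mem_subgroupOf.mp hx
    apply AddMonoidHom.ext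
    intro t
    show (x : Γ) • t = t
    rw [← hv]
    exact hC.smul_iota v.toAdd t
  let ψ : X ⧸ ι.range.subgroupOf X →* AddMonoid.End L := QuotientGroup.lift _ φ hφ
  letI : DistribMulAction (X ⧸ ι.range.subgroupOf X) L := DistribMulAction.compHom L ψ
  have hsmul : ∀ (x : X) (v : L), (x : X ⧸ ι.range.subgroupOf X) • v = (x : Γ) • v :=
    fun x v => rfl
  have hfaith : ∀ g : X ⧸ ι.range.subgroupOf X, (∀ v : L, g • v = v) → g = 1 := by
    intro g hg
    obtain ⟨x, rfl⟩ := QuotientGroup.mk_surjective g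
    apply (QuotientGroup.eq_one_iff _).mpr
    rw [Subgroup.mem_subgroupOf]
    exact hC.self x hg
  have hmain := hD l hl (X ⧸ ι.range.subgroupOf X) hP L hfaith
  let e : {f : X →* Multiplicative (ZMod l) // ∀ e : X, (e : Γ) ∈ ι.range → f e = 1} →
      (X ⧸ ι.range.subgroupOf X →* Multiplicative (ZMod l)) := fun f =>
    QuotientGroup.lift _ f.1 (fun x hx => f.2 x (Subgroup.mem_subgroupOf.mp hx))
  have he : Function.Injective e := by
    intro f g h
    apply Subtype.ext
    ext x
    have := DFunLike.congr_fun h (x : X ⧸ ι.range.subgroupOf X)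
    exact congrArg _ this
  haveI : Finite (X ⧸ ι.range.subgroupOf X →* Multiplicative (ZMod l)) :=
    Finite.of_injective _ DFunLike.coe_injective
  exact ⟨Finite.of_injective e he,
    (Nat.pow_le_pow_left (Nat.card_le_card_of_injective e he) _).trans hmain⟩

end Pool.MP_b7b920_al.CT
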