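import Pool.Agent.Lib.MP_b7b920_al_h6.RPrime
import Pool.Agent.Lib.MP_b7b920_al_h19.HomCount
import Pool.Agent.Lib.MP_b7b920_al_CT.Defs

set_option autoImplicit false

/-!
# Step 2 of CT (MP_b7b920_al, helper6)
-/

namespace Pool.MP_b7b920_al.CT

open Module Pool.MP_b7b920_al.H19 Pool.Agent.Lib.MP_b7b920_al_h6

variable {Γ L : Type} [Group Γ] [AddCommGroup L] [Module.Free ℤ L]
  [Module.Finite ℤ L] [DistribMulAction Γ L] (ι : Multiplicative L →* Γ)

/-- Steps 1-2 without the nontriviality clause. -/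
theorem step2_aux (hC : Cryst Γ L ι) (p : ℕ) [Fact p.Prime] (X : Subgroup Γ) (hTX : ι.range ≤ X)
    (hX : ∃ k, ι.range.relIndex X = p ^ k) (hnt : ∃ a ∈ X, a ∉ ι.range) :
    ∃ E : Subgroup Γ, Finite E ∧ E ≤ X ∧
      Finite (X →* Multiplicative (ZMod p)) ∧
      Nat.card {f : X →* Multiplicative (ZMod p) // ∀ e : X, (e : Γ) ∈ E → f e = 1} ≤
        (if p = 2 then p ^ finrank ℤ L else p ^ (finrank ℤ L - 1)) := by
  have hp : p.Prime := Fact.out
  obtain ⟨k, hk⟩ := hX
  haveI hnorm : ι.range.Normal := hC.normal_range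
  haveI hNn : (ι.range.subgroupOf X).Normal := inferInstance
  haveI := hC.fin
  haveI hNf : (ι.range.subgroupOf X).FiniteIndex := inferInstance
  have hidx : (ι.range.subgroupOf X).index = p ^ k := hk
  -- the inverse of `ι`
  have hex : ∀ n : ι.range.subgroupOf X, ∃ v : L, ι (Multiplicative.ofAdd v) = ((n : X) : Γ) := by
    intro n
    obtain ⟨v, hv⟩ := Subgroup.mem_subgroupOf.mp n.2
    exact ⟨v.toAdd, hv⟩
  choose k0 hk0 using hex
  have hinj : ∀ v w : L, ι (Multiplicative.ofAdd v) = ι (Multiplicative.ofAdd w) → v = w :=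
    fun v w h => Multiplicative.ofAdd.injective (hC.inj h)
  obtain ⟨κ, hκ, hκN⟩ := exists_transfer (ι.range.subgroupOf X) k0
    (by
      intro a b
      apply hinj
      rw [hk0, ofAdd_add, map_mul, hk0, hk0]
      rfl)
    (by
      intro g n
      apply hinj
      rw [hk0]
      have := hC.conj (g : Γ) (k0 n)
      rw [hk0] at this
      exact this)
  have hN : ∀ g ∈ ι.range.subgroupOf X, ∀ t : L, g • t = t := by
    intro g hg t
    obtain ⟨v, hv⟩ := Subgroup.mem_subgroupOf.mp hg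
    show (g : Γ) • t = t
    rw [← hv]
    exact hC.smul_iota v.toAdd t
  have hker : Finite ↥(derKer κ hκ ⊓ ⊤ ⊓ ι.range.subgroupOf X) := by
    have h1 : derKer κ hκ ⊓ ⊤ ⊓ ι.range.subgroupOf X = ⊥ := by
      rw [eq_bot_iff]
      rintro g ⟨⟨hg1, -⟩, hg2⟩
      have h2 : κ g = 0 := hg1
      have h3 := hκN ⟨g, hg2⟩
      simp only at h3
      rw [h2, hidx] at h3
      have h4 : ((p ^ k : ℕ) : ℤ) • k0 ⟨g, hg2⟩ = 0 := by rw [natCast_zsmul]; exact h3.symm
      have hp0 : ((p ^ k : ℕ) : ℤ) ≠ 0 := by exact_mod_cast (pow_ne_zero _ hp.ne_zero)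
      have h5 := (smul_eq_zero.mp h4).resolve_left hp0
      have h6 := hk0 ⟨g, hg2⟩
      rw [h5, ofAdd_zero, map_one] at h6
      rw [Subgroup.mem_bot]
      exact Subtype.ext h6.symm
    rw [h1]
    infer_instance
  obtain ⟨E, -, hE2, hE3, hE4, hE5⟩ := rprime (Δ := X) (T := L) p (ι.range.subgroupOf X) hN
    (by
      intro g
      refine ⟨k, ?_⟩
      rw [← hidx]
      exact Subgroup.pow_index_mem _ g)
    (finrank ℤ L) ⊤ ⊤ κ hκ (by
      exact LinearEquiv.finrank_eq (AddSubgroup.topEquiv (G := L)).toIntLinearEquiv)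
    (fun _ _ _ _ => AddSubgroup.mem_top _) (fun _ _ => AddSubgroup.mem_top _) hker
  -- transport to `X`
  have hcard : Nat.card {f : X →* Multiplicative (ZMod p) //
      ∀ e : X, (e : Γ) ∈ E.map X.subtype → f e = 1} ≤
      Nat.card (HomK (⊤ : Subgroup X) (Multiplicative (ZMod p)) (E : Set X)) := by
    let F : {f : X →* Multiplicative (ZMod p) // ∀ e : X, (e : Γ) ∈ E.map X.subtype → f e = 1} →
        HomK (⊤ : Subgroup X) (Multiplicative (ZMod p)) (E : Set X) := fun f =>
      ⟨f.1.comp (⊤ : Subgroup X).subtype, fun e he => f.2 _ ⟨e.1, he, rfl⟩⟩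
    apply Nat.card_le_card_of_injective F
    intro f g h
    apply Subtype.ext
    ext x
    have h1 := congrArg (fun t : HomK (⊤ : Subgroup X) (Multiplicative (ZMod p)) (E : Set X) =>
      t.1 ⟨x, Subgroup.mem_top x⟩) h
    exact congrArg _ h1
  refine ⟨E.map X.subtype, ?_, ?_, ?_, hcard.trans ?_⟩
  · exact Finite.of_surjective (fun e : E => (⟨X.subtype e, ⟨e.1, e.2, rfl⟩⟩ : E.map X.subtype))
      (by
        rintro ⟨_, e, he, rfl⟩
        exact ⟨⟨e, he⟩, rfl⟩)
  · rintro _ ⟨e, -, rfl⟩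
    exact e.2
  · -- finiteness of `Hom(X, Z/p)`
    let e : Multiplicative L →* ι.range.subgroupOf X :=
      { toFun := fun v => ⟨⟨ι v, hTX ⟨v, rfl⟩⟩, Subgroup.mem_subgroupOf.mpr ⟨v, rfl⟩⟩
        map_one' := by
          apply Subtype.ext; apply Subtype.ext; exact map_one ι
        map_mul' := by
          intro a b
          apply Subtype.ext; apply Subtype.ext; exact map_mul ι a b }
    have he : Function.Surjective e := by
      rintro ⟨⟨g, hg⟩, hg2⟩
      obtain ⟨v, hv⟩ := Subgroup.mem_subgroupOf.mp hg2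
      exact ⟨v, Subtype.ext (Subtype.ext hv)⟩
    have h1 : Finite (ι.range.subgroupOf X →* Multiplicative (ZMod p)) := by
      haveI := (card_hom_free (L := L) (A := Multiplicative (ZMod p))).1
      apply Finite.of_injective (fun f : ι.range.subgroupOf X →* Multiplicative (ZMod p) =>
        f.comp e)
      intro f g h
      exact (MonoidHom.cancel_right he).mp h
    have h2 : Finite (X ⧸ ι.range.subgroupOf X →* Multiplicative (ZMod p)) :=
      Finite.of_injective _ DFunLike.coe_injective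
    exact (card_hom_le_mul (A := Multiplicative (ZMod p)) (ι.range.subgroupOf X) ∅).1
  · split_ifs with h
    · exact hE4
    · apply hE5 h
      obtain ⟨a, ha, ha'⟩ := hnt
      by_contra hcon
      apply ha'
      apply hC.self
      intro v
      by_contra hv
      exact hcon ⟨⟨a, ha⟩, Subgroup.mem_top _, v, AddSubgroup.mem_top _, hv⟩

/-- Steps 1-2, given a nontrivial element of finite order when the rank is two. -/
theorem step2_core (hC : Cryst Γ L ι) (p : ℕ) [Fact p.Prime] (X : Subgroup Γ)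
    (hTX : ι.range ≤ X) (hX : ∃ k, ι.range.relIndex X = p ^ k) (A : Subgroup Γ)
    (hTA : ι.range < A) (hAX : A ≤ X)
    (htor : finrank ℤ L = 2 → ∃ a ∈ A, a ≠ 1 ∧ IsOfFinOrder a) :
    ∃ E : Subgroup Γ, Finite E ∧ E ≤ X ∧ (finrank ℤ L = 2 → E ≠ ⊥) ∧
      Finite (X →* Multiplicative (ZMod p)) ∧
      Nat.card {f : X →* Multiplicative (ZMod p) // ∀ e : X, (e : Γ) ∈ E → f e = 1} ≤
        (if p = 2 then p ^ finrank ℤ L else p ^ (finrank ℤ L - 1)) := by
  have hnt : ∃ a ∈ X, a ∉ ι.range := by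
    obtain ⟨a, ha, ha'⟩ := SetLike.exists_of_lt hTA
    exact ⟨a, hAX ha, ha'⟩
  obtain ⟨E, hE1, hE2, hE3, hE4⟩ := step2_aux ι hC p X hTX hX hnt
  by_cases hE : finrank ℤ L = 2 ∧ E = ⊥
  · obtain ⟨h2, rfl⟩ := hE
    obtain ⟨a, haA, ha1, hafin⟩ := htor h2
    refine ⟨Subgroup.zpowers a, ?_, ?_, ?_, hE3, ?_⟩
    · exact Set.finite_coe_iff.mpr (finite_zpowers.mpr hafin)
    · rw [Subgroup.zpowers_le]
      exact hAX haA
    · intro _ h
      exact ha1 (Subgroup.zpowers_eq_bot.mp h)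
    · refine le_trans ?_ hE4
      let F : {f : X →* Multiplicative (ZMod p) //
          ∀ e : X, (e : Γ) ∈ Subgroup.zpowers a → f e = 1} →
          {f : X →* Multiplicative (ZMod p) // ∀ e : X, (e : Γ) ∈ (⊥ : Subgroup Γ) → f e = 1} :=
        fun f => ⟨f.1, fun e he => f.2 e (by
          rw [Subgroup.mem_bot] at he
          rw [he]
          exact Subgroup.one_mem _)⟩
      apply Nat.card_le_card_of_injective F
      intro f g h
      have h' := congrArg Subtype.val h
      exact Subtype.ext h'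
  · exact ⟨E, hE1, hE2, fun h2 h => hE ⟨h2, h⟩, hE3, hE4⟩

end Pool.MP_b7b920_al.CT
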