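import Mathlib

set_option autoImplicit false

/-!
# Counting homomorphisms on nested subgroups (MP_b7b920_al, helper6)
-/

namespace Pool.Agent.Lib.MP_b7b920_al_h6

variable {Δ : Type*} [Group Δ] {A : Type*} [CommGroup A]

/-- homomorphisms on the subgroup `D` which are trivial on `S ∩ D` -/
abbrev HomK (D : Subgroup Δ) (A : Type*) [CommGroup A] (S : Set Δ) : Type _ :=
  {f : D →* A // ∀ e : D, (e : Δ) ∈ S → f e = 1}

theorem card_mul (D' D : Subgroup Δ) (hle : D' ≤ D) (S : Set Δ)
    (h1 : Finite (HomK D' A S)) (h2 : Finite (HomK D A (D' : Set Δ))) :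
    Finite (HomK D A S) ∧
      Nat.card (HomK D A S) ≤ Nat.card (HomK D' A S) * Nat.card (HomK D A (D' : Set Δ)) := by
  classical
  let R : HomK D A S → HomK D' A S := fun f =>
    ⟨f.1.comp (Subgroup.inclusion hle), fun e he => f.2 (Subgroup.inclusion hle e) he⟩
  let σ : HomK D' A S → HomK D A S := fun g =>
    if h : ∃ f, R f = g then h.choose else ⟨1, fun _ _ => rfl⟩
  have hσ : ∀ f, R (σ (R f)) = R f := by
    intro f
    have h : ∃ f', R f' = R f := ⟨f, rfl⟩
    simp only [σ, dif_pos h]
    exact h.choose_spec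
  let Φ : HomK D A S → HomK D' A S × HomK D A (D' : Set Δ) := fun f =>
    (R f, ⟨f.1 / (σ (R f)).1, by
      intro e he
      have h3 := congrArg (fun g : HomK D' A S => g.1 ⟨e, he⟩) (hσ f)
      have h4 : (σ (R f)).1 e = f.1 e := h3
      rw [MonoidHom.div_apply, h4, div_self']⟩)
  have hΦ : Function.Injective Φ := by
    intro f g h
    have ha : R f = R g := congrArg Prod.fst h
    have hb := congrArg (fun x : HomK D' A S × HomK D A (D' : Set Δ) => x.2.1) h
    have hb' : f.1 / (σ (R f)).1 = g.1 / (σ (R g)).1 := hb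
    rw [ha] at hb'
    exact Subtype.ext (div_left_injective hb')
  refine ⟨Finite.of_injective Φ hΦ, ?_⟩
  rw [← Nat.card_prod]
  exact Nat.card_le_card_of_injective Φ hΦ

end Pool.Agent.Lib.MP_b7b920_al_h6
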