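import Mathlib

set_option autoImplicit false

/-!
# Counting homomorphisms to a group of prime order (MP_b7b920_al, helper6)
-/

namespace Pool.Agent.Lib.MP_b7b920_al_h6

open Module

/-- If every homomorphism `X → Z/p` of the set `F` is constant on the fibres of `q : X → Q`,
with `Q` finite, then `F` has at most `|Q|` elements. -/
theorem card_hom_le {X : Type*} [Group X] {p : ℕ} [Fact p.Prime]
    {Q : Type*} [Finite Q] (q : X → Q) (F : Set (X →* Multiplicative (ZMod p)))
    (hq : ∀ f ∈ F, ∀ x y, q x = q y → f x = f y) :
    Finite F ∧ Nat.card F ≤ Nat.card Q := by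
  classical
  haveI : NeZero p := ⟨(Fact.out : p.Prime).ne_zero⟩
  have : Fintype Q := Fintype.ofFinite Q
  -- the character
  let ψ : Multiplicative (ZMod p) →* ℂ := (ZMod.stdAddChar (N := p)).toMonoidHom
  have hψ : Function.Injective ψ := by
    intro a b h
    have := ZMod.injective_stdAddChar (N := p) (a₁ := a.toAdd) (a₂ := b.toAdd) h
    exact Multiplicative.toAdd.injective this
  let g : F → (X →* ℂ) := fun f => ψ.comp f.1
  have hg : Function.Injective g := by
    intro f f' h
    apply Subtype.ext
    ext x
    have := DFunLike.congr_fun h x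
    exact congrArg Multiplicative.toAdd (hψ this)
  have hli : LinearIndependent ℂ (fun f : F => (g f : X → ℂ)) :=
    (linearIndependent_monoidHom X ℂ).comp g hg
  -- factor through q
  let pull : (Q → ℂ) →ₗ[ℂ] (X → ℂ) := LinearMap.funLeft ℂ ℂ q
  have hex : ∀ f : F, ∃ u : Q → ℂ, pull u = (g f : X → ℂ) := by
    intro f
    refine ⟨Function.extend q (g f : X → ℂ) 0, ?_⟩
    ext x
    have hfac : Function.FactorsThrough (g f : X → ℂ) q := by
      intro a b hab
      change ψ (f.1 a) = ψ (f.1 b)
      rw [hq f.1 f.2 a b hab]
    change Function.extend q (g f : X → ℂ) 0 (q x) = _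
    exact hfac.extend_apply 0 x
  choose u hu using hex
  have hli' : LinearIndependent ℂ u := by
    apply LinearIndependent.of_comp pull
    have : (pull ∘ u : F → (X → ℂ)) = fun f : F => (g f : X → ℂ) := by
      funext f; exact hu f
    rw [this]; exact hli
  have hfin : Finite F := hli'.finite
  refine ⟨hfin, ?_⟩
  have : Fintype F := Fintype.ofFinite F
  have h := hli'.fintype_card_le_finrank
  rw [Module.finrank_fintype_fun_eq_card] at h
  simpa [Nat.card_eq_fintype_card] using h

end Pool.Agent.Lib.MP_b7b920_al_h6
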