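import Pool.Agent.Lib.MP_b7b920_al_h6.RPrimeAux

set_option autoImplicit false

/-!
# R' : the key counting theorem (MP_b7b920_al, helper6)
-/

namespace Pool.Agent.Lib.MP_b7b920_al_h6

open Module Pool.MP_b7b920_al.H19

variable {Δ : Type*} [Group Δ] {T : Type*} [AddCommGroup T] [Module.Free ℤ T] [Module.Finite ℤ T]
  [DistribMulAction Δ T]

theorem finrank_pos_of_ne_bot {W : AddSubgroup T} (h : W ≠ ⊥) : 0 < finrank ℤ W := by
  haveI : Nontrivial W := by
    rw [AddSubgroup.nontrivial_iff_ne_bot]; exact h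
  exact Module.finrank_pos

theorem pow_mulZ {p : ℕ} {G : Type*} [Group G] (f : G →* Multiplicative (ZMod p)) (g : G) :
    f (g ^ p) = 1 := by
  rw [map_pow]
  apply Multiplicative.toAdd.injective
  rw [toAdd_pow, toAdd_one]
  rw [nsmul_eq_mul, ZMod.natCast_self, zero_mul]

/-- derivation restricted to a subgroup -/
theorem isDer_restrict {κ : Δ → T} (hκ : IsDer κ) (D : Subgroup Δ) :
    IsDer (fun g : D => κ g) := fun g h => hκ g h

/-- Case A: trivial action. -/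
theorem caseA (p : ℕ) [Fact p.Prime] (D : Subgroup Δ) (T' : AddSubgroup T) (κ : Δ → T)
    (hκ : IsDer κ) (htriv : ∀ g ∈ D, ∀ t ∈ T', g • t = t) (hκT : ∀ g ∈ D, κ g ∈ T')
    (hfin : Finite ↥(derKer κ hκ ⊓ D)) :
    ∃ E : Subgroup Δ, E ≤ D ∧ Finite E ∧ Finite (HomK D (Multiplicative (ZMod p)) (E : Set Δ)) ∧
      Nat.card (HomK D (Multiplicative (ZMod p)) (E : Set Δ)) ≤ p ^ finrank ℤ T' := by
  have hp : p.Prime := Fact.out
  refine ⟨derKer κ hκ ⊓ D, inf_le_right, hfin, ?_⟩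
  let l : D → T := fun g => κ g
  have hl : IsDer l := isDer_restrict hκ D
  let W : AddSubgroup T := AddSubgroup.closure (Set.range l)
  have hWT : W ≤ T' := by
    rw [AddSubgroup.closure_le]
    rintro _ ⟨g, rfl⟩
    exact hκT g g.2
  have hpow : ∀ (g : D) (n : ℕ), l (g ^ n) = n • l g := by
    intro g n
    induction n with
    | zero => simp only [pow_zero, zero_smul]; exact hl.one
    | succ n ih =>
      rw [pow_succ', hl, ih]
      have : g • (n • l g) = n • l g :=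
        htriv g g.2 _ (T'.nsmul_mem (hκT g g.2) n)
      rw [this, add_smul, one_smul, add_comm]
  have hrel : (W.map (nsmulAddMonoidHom (α := T) p)).relIndex W = p ^ finrank ℤ W :=
    relIndex_nsmul p W
  have := count_step (p := p) l hl W rfl (nsmulAddMonoidHom (α := T) p)
    {f : D →* Multiplicative (ZMod p) |
      ∀ e : D, (e : Δ) ∈ ((derKer κ hκ ⊓ D : Subgroup Δ) : Set Δ) → f e = 1}
    (by
      intro f hf x hx
      exact hf x (Subgroup.mem_inf.mpr ⟨hx, x.2⟩))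
    (by
      intro g
      refine ⟨g ^ p, ?_, ?_, ?_⟩
      · intro t ht
        exact htriv _ (g ^ p).2 t (hWT ht)
      · rw [hpow]; rfl
      · intro f _
        exact pow_mulZ f g)
    (by rw [hrel]; exact pow_ne_zero _ hp.ne_zero)
  refine ⟨this.1, this.2.trans ?_⟩
  rw [hrel]
  exact Nat.pow_le_pow_right hp.pos (finrank_mono' hWT)

/-- The counting bound in the nontrivial case for homs vanishing on the kernel of `λ`. -/
theorem caseB_count (p : ℕ) [Fact p.Prime] (D : Subgroup Δ) (T' : AddSubgroup T)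
    (hst : ∀ g ∈ D, ∀ t ∈ T', g • t ∈ T') (z : Δ) (hzD : z ∈ D)
    (hzp : ∀ t ∈ T', z ^ p • t = t)
    (hzc : ∀ g ∈ D, ∀ t ∈ T', (z * g * z⁻¹ * g⁻¹) • t = t)
    (κ : Δ → T) (hκ : IsDer κ) (hκT : ∀ g ∈ D, κ g ∈ T') (hκz : th T z (κ z) = 0)
    (D'' : Subgroup Δ) (hD'' : ∀ g ∈ D, th T z (κ g) = 0 → g ∈ D'') :
    ∃ W : AddSubgroup T, W ≤ T'.map (th T z) ∧
      Finite (HomK D (Multiplicative (ZMod p)) (D'' : Set Δ)) ∧
      Nat.card (HomK D (Multiplicative (ZMod p)) (D'' : Set Δ)) ≤ p ^ finrank ℤ W ∧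
      (p ≠ 2 → 0 < finrank ℤ W →
        Nat.card (HomK D (Multiplicative (ZMod p)) (D'' : Set Δ)) ≤ p ^ (finrank ℤ W - 1)) := by
  have hp : p.Prime := Fact.out
  have hcomm : ∀ g ∈ D, ∀ t ∈ T', z • g • t = g • z • t := by
    intro g hg t ht
    have h1 := hzc g hg (g • z • t) (hst g hg _ (hst z hzD t ht))
    have h2 : (z * g * z⁻¹ * g⁻¹) • g • z • t = z • g • t := by
      simp only [mul_smul, inv_smul_smul]
    rw [h2] at h1
    exact h1
  let l : D → T := fun g => th T z (κ g)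
  have hl : IsDer l := by
    intro g h
    show th T z (κ (g * h)) = th T z (κ g) + (g : Δ) • th T z (κ h)
    rw [hκ, map_add]
    congr 1
    rw [th_apply, th_apply, smul_sub, hcomm g g.2 _ (hκT h h.2)]
  have hlT : ∀ g : D, l g ∈ T'.map (th T z) := fun g => ⟨κ g, hκT g g.2, rfl⟩
  have hTT : T'.map (th T z) ≤ T' := by
    rintro _ ⟨t, ht, rfl⟩
    exact T'.sub_mem (hst z hzD t ht) ht
  let W : AddSubgroup T := AddSubgroup.closure (Set.range l)
  have hWT : W ≤ T'.map (th T z) := by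
    rw [AddSubgroup.closure_le]
    rintro _ ⟨g, rfl⟩
    exact hlT g
  have hWT' : W ≤ T' := hWT.trans hTT
  have hlz : l ⟨z, hzD⟩ = 0 := hκz
  -- the commutator
  have hlc : ∀ g : D, l (⟨z, hzD⟩ * g * ⟨z, hzD⟩⁻¹ * g⁻¹) = th T z (l g) := by
    intro g
    rw [hl.commutator, hlz, smul_zero, sub_zero, zero_add]
    have : (⟨z, hzD⟩ * g * ⟨z, hzD⟩⁻¹ * g⁻¹ : D) • l g = l g :=
      hzc g g.2 _ (hTT (hlT g))
    rw [this]
    rfl
  have hθW : W.map (th T z) ≤ W := by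
    rw [AddSubgroup.map_le_iff_le_comap, AddSubgroup.closure_le]
    rintro _ ⟨g, rfl⟩
    show th T z (l g) ∈ W
    rw [← hlc]
    exact AddSubgroup.subset_closure ⟨_, rfl⟩
  have hzW : ∀ w ∈ W, z • w ∈ W := by
    intro w hw
    have h1 : th T z w ∈ W := hθW ⟨w, hw, rfl⟩
    have h2 : z • w = th T z w + w := by rw [th_apply]; abel
    rw [h2]
    exact W.add_mem h1 hw
  have hNW : ∀ w ∈ W, Nm T p z w = 0 := by
    have : W ≤ (Nm T p z).ker := by
      rw [AddSubgroup.closure_le]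
      rintro _ ⟨g, rfl⟩
      show Nm T p z (th T z (κ g)) = 0
      rw [Nm_th, hzp _ (hκT g g.2), sub_self]
    exact fun w hw => this hw
  have hpW : W.map (nsmulAddMonoidHom (α := T) p) ≤ W.map (th T z) := by
    rintro _ ⟨w, hw, rfl⟩
    refine ⟨-Dn T p z w, W.neg_mem (Dn_mem hzW p w hw), ?_⟩
    have h1 := Nm_eq p z w
    rw [hNW w hw] at h1
    rw [map_neg]
    exact (eq_neg_of_add_eq_zero_left h1.symm).symm
  have hdvd := relIndex_dvd p W (th T z) hθW hpW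
  have hne : (W.map (th T z)).relIndex W ≠ 0 := by
    intro h0
    rw [h0] at hdvd
    exact pow_ne_zero _ hp.ne_zero (Nat.eq_zero_of_zero_dvd hdvd)
  have hcnt := count_step (p := p) l hl W rfl (th T z)
    {f : D →* Multiplicative (ZMod p) | ∀ e : D, (e : Δ) ∈ (D'' : Set Δ) → f e = 1}
    (by
      intro f hf x hx
      exact hf x (hD'' x x.2 hx))
    (by
      intro g
      refine ⟨⟨z, hzD⟩ * g * ⟨z, hzD⟩⁻¹ * g⁻¹, ?_, hlc g, ?_⟩
      · intro t ht
        exact hzc g g.2 t (hWT' ht)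
      · intro f _
        rw [map_mul, map_mul, map_mul, map_inv, map_inv]
        rw [mul_right_comm (f ⟨z, hzD⟩), mul_inv_cancel, one_mul, mul_inv_cancel])
    hne
  refine ⟨W, hWT, hcnt.1, hcnt.2.trans (Nat.le_of_dvd (pow_pos hp.pos _) hdvd), ?_⟩
  intro hp2 hpos
  obtain ⟨j, hj, hj'⟩ := (Nat.dvd_prime_pow hp).mp hdvd
  refine hcnt.2.trans ?_
  rw [hj']
  apply Nat.pow_le_pow_right hp.pos
  rcases Nat.lt_or_ge j (finrank ℤ W) with h | h
  · omega
  exfalso
  have hjeq : j = finrank ℤ W := le_antisymm hj h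
  have h1 := AddSubgroup.relIndex_mul_relIndex _ _ _ hpW hθW
  rw [relIndex_nsmul, hj', hjeq] at h1
  have h2 : (W.map (nsmulAddMonoidHom (α := T) p)).relIndex (W.map (th T z)) = 1 := by
    have hpos' : 0 < p ^ finrank ℤ W := pow_pos hp.pos _
    exact Nat.eq_of_mul_eq_mul_right hpos' (by rw [h1, one_mul])
  rw [AddSubgroup.relIndex_eq_one] at h2
  have hodd := odd_lemma hp hp2 W z (by
    intro w hw
    obtain ⟨w', hw', h3⟩ := h2 ⟨w, hw, rfl⟩
    exact ⟨w', hw', h3.symm⟩) hNW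
  have h3 : W ≤ W.map (nsmulAddMonoidHom (α := T) p) := by
    intro w hw
    obtain ⟨w', hw', h4⟩ := hodd w hw
    exact ⟨w', hw', h4.symm⟩
  have h4 : (W.map (nsmulAddMonoidHom (α := T) p)).relIndex W = 1 :=
    AddSubgroup.relIndex_eq_one.mpr h3
  rw [relIndex_nsmul] at h4
  have h5 : 1 < p ^ finrank ℤ W := Nat.one_lt_pow hpos.ne' hp.one_lt
  omega

/-- **R'**: the key counting theorem. -/
theorem rprime (p : ℕ) [Fact p.Prime] (N : Subgroup Δ) [N.FiniteIndex]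
    (hN : ∀ g ∈ N, ∀ t : T, g • t = t) (hact : ∀ g : Δ, ∃ k, g ^ (p ^ k) ∈ N) :
    ∀ (n : ℕ) (D : Subgroup Δ) (T' : AddSubgroup T) (κ : Δ → T) (hκ : IsDer κ),
      finrank ℤ T' = n → (∀ g ∈ D, ∀ t ∈ T', g • t ∈ T') → (∀ g ∈ D, κ g ∈ T') →
      Finite ↥(derKer κ hκ ⊓ D ⊓ N) →
      ∃ E : Subgroup Δ, E ≤ D ∧ Finite E ∧
        Finite (HomK D (Multiplicative (ZMod p)) (E : Set Δ)) ∧
        Nat.card (HomK D (Multiplicative (ZMod p)) (E : Set Δ)) ≤ p ^ n ∧
        (p ≠ 2 → (∃ g ∈ D, ∃ t ∈ T', g • t ≠ t) →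
          Nat.card (HomK D (Multiplicative (ZMod p)) (E : Set Δ)) ≤ p ^ (n - 1)) := by
  have hp : p.Prime := Fact.out
  intro n
  induction n using Nat.strong_induction_on with
  | _ n ih =>
  intro D T' κ hκ hn hst hκT hfin
  by_cases htriv : ∀ g ∈ D, ∀ t ∈ T', g • t = t
  · obtain ⟨E, hE1, hE2, hE3, hE4⟩ := caseA p D T' κ hκ htriv hκT (finite_of_inf _ N hfin)
    refine ⟨E, hE1, hE2, hE3, hn ▸ hE4, ?_⟩
    rintro - ⟨g, hg, t, ht, hne⟩
    exact absurd (htriv g hg t ht) hne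
  -- the kernel of the action of `D` on `T'`
  let C : Subgroup D :=
    { carrier := {g | ∀ t ∈ T', (g : Δ) • t = t}
      one_mem' := fun t _ => one_smul _ t
      mul_mem' := fun {a b} ha hb t ht => by
        show ((a : Δ) * (b : Δ)) • t = t
        rw [mul_smul, hb t ht, ha t ht]
      inv_mem' := fun {a} ha t ht => by
        show (a : Δ)⁻¹ • t = t
        rw [inv_smul_eq_iff, ha t ht] }
  have hCn : C.Normal := by
    constructor
    intro c hc g t ht
    show ((g : Δ) * (c : Δ) * (g : Δ)⁻¹) • t = t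
    rw [mul_smul, mul_smul, hc _ (hst _ (D.inv_mem g.2) t ht), smul_inv_smul]
  have hNC : N.subgroupOf D ≤ C := fun g hg t _ => hN g hg t
  have hCf : C.FiniteIndex := Subgroup.finiteIndex_of_le hNC
  have hCtop : C ≠ ⊤ := by
    intro h
    apply htriv
    intro g hg t ht
    have : (⟨g, hg⟩ : D) ∈ C := h ▸ Subgroup.mem_top _
    exact this t ht
  obtain ⟨z, hzC, hzp, hzc⟩ := exists_central p C hCtop (by
    intro g
    obtain ⟨k, hk⟩ := hact g
    exact ⟨k, hNC (by rw [Subgroup.mem_subgroupOf]; exact_mod_cast hk)⟩)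
  have hzD : (z : Δ) ∈ D := z.2
  have hzp' : ∀ t ∈ T', (z : Δ) ^ p • t = t := hzp
  have hzc' : ∀ g ∈ D, ∀ t ∈ T', ((z : Δ) * g * (z : Δ)⁻¹ * g⁻¹) • t = t :=
    fun g hg => hzc ⟨g, hg⟩
  have hcomm : ∀ g ∈ D, ∀ t ∈ T', (z : Δ) • g • t = g • (z : Δ) • t := by
    intro g hg t ht
    have h1 := hzc' g hg (g • (z : Δ) • t) (hst g hg _ (hst z hzD t ht))
    have h2 : ((z : Δ) * g * (z : Δ)⁻¹ * g⁻¹) • g • (z : Δ) • t = (z : Δ) • g • t := by
      simp only [mul_smul, inv_smul_smul]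
    rw [h2] at h1
    exact h1
  -- the new derivation
  let u : T := κ z
  have hu : u ∈ T' := hκT z hzD
  let b : T := -Dn T p (z : Δ) u
  have hb : b ∈ T' := T'.neg_mem (Dn_mem (hst z hzD) p u hu)
  let κ₂ : Δ → T := fun g => p • κ g - (g • b - b)
  have hκ₂ : IsDer κ₂ := (hκ.smul_nat p).sub (isDer_inner b)
  have hκ₂T : ∀ g ∈ D, κ₂ g ∈ T' := fun g hg =>
    T'.sub_mem (T'.nsmul_mem (hκT g hg) p) (T'.sub_mem (hst g hg b hb) hb)
  have hκ₂z : κ₂ z = Nm T p (z : Δ) u := by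
    show p • u - th T (z : Δ) b = _
    have h1 := Nm_eq p (z : Δ) u
    rw [h1]
    simp only [b, map_neg]
    abel
  have hlz : th T (z : Δ) (κ₂ z) = 0 := by
    rw [hκ₂z, th_Nm, hzp' u hu, sub_self]
  -- the stabiliser subgroups
  let T'' : AddSubgroup T := T' ⊓ (th T (z : Δ)).ker
  let D'' : Subgroup Δ :=
    { carrier := {g | g ∈ D ∧ th T (z : Δ) (κ₂ g) = 0}
      one_mem' := ⟨D.one_mem, by rw [hκ₂.one, map_zero]⟩
      mul_mem' := by
        rintro a c ⟨ha, ha'⟩ ⟨hc, hc'⟩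
        refine ⟨D.mul_mem ha hc, ?_⟩
        rw [hκ₂, map_add, ha', zero_add, th_apply, hcomm a ha _ (hκ₂T c hc), ← smul_sub,
          ← th_apply, hc', smul_zero]
      inv_mem' := by
        rintro a ⟨ha, ha'⟩
        refine ⟨D.inv_mem ha, ?_⟩
        rw [hκ₂.inv, map_neg, th_apply, hcomm _ (D.inv_mem ha) _ (hκ₂T a ha), ← smul_sub,
          ← th_apply, ha', smul_zero, neg_zero] }
  have hD''D : D'' ≤ D := fun g hg => hg.1
  have hrank : finrank ℤ (T'.map (th T (z : Δ))) + finrank ℤ T'' = n := by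
    rw [← hn]; exact rank_nullity T' (th T (z : Δ))
  have hrpos : 0 < finrank ℤ (T'.map (th T (z : Δ))) := by
    apply finrank_pos_of_ne_bot
    intro h
    apply hzC
    intro t ht
    have : th T (z : Δ) t ∈ T'.map (th T (z : Δ)) := ⟨t, ht, rfl⟩
    rw [h, AddSubgroup.mem_bot, th_apply, sub_eq_zero] at this
    exact this
  obtain ⟨E, hE1, hE2, hE3, hE4, -⟩ := ih (finrank ℤ T'') (by omega) D'' T'' κ₂ hκ₂ rfl
    (by
      rintro g ⟨hg, -⟩ t ⟨ht, ht'⟩
      refine ⟨hst g hg t ht, ?_⟩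
      have ht'' : th T (z : Δ) t = 0 := ht'
      show th T (z : Δ) (g • t) = 0
      rw [th_apply, hcomm g hg t ht, ← smul_sub, ← th_apply, ht'', smul_zero])
    (by
      rintro g ⟨hg, hg'⟩
      exact ⟨hκ₂T g hg, hg'⟩)
    (by
      have hle : derKer κ₂ hκ₂ ⊓ D'' ⊓ N ≤ derKer κ hκ ⊓ D ⊓ N := by
        rintro g ⟨⟨hg1, hg2⟩, hg3⟩
        refine ⟨⟨?_, hg2.1⟩, hg3⟩
        have h1 : p • κ g - (g • b - b) = 0 := hg1
        rw [hN g hg3 b, sub_self, sub_zero] at h1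
        have h2 : (p : ℤ) • κ g = 0 := by rw [natCast_zsmul]; exact h1
        have hp0 : (p : ℤ) ≠ 0 := by exact_mod_cast hp.ne_zero
        exact (smul_eq_zero.mp h2).resolve_left hp0
      exact Finite.of_injective _ (Subgroup.inclusion_injective hle))
  obtain ⟨W, hW1, hW2, hW3, hW4⟩ := caseB_count p D T' hst z hzD hzp' hzc' κ₂ hκ₂ hκ₂T hlz D''
    (fun g hg h => ⟨hg, h⟩)
  have hWr : finrank ℤ W ≤ finrank ℤ (T'.map (th T (z : Δ))) := finrank_mono' hW1
  obtain ⟨hc1, hc2⟩ := card_mul D'' D hD''D (E : Set Δ) hE3 hW2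
  refine ⟨E, hE1.trans hD''D, hE2, hc1, ?_, ?_⟩
  · refine hc2.trans ((Nat.mul_le_mul hE4 hW3).trans ?_)
    rw [← pow_add]
    exact Nat.pow_le_pow_right hp.pos (by omega)
  · rintro hp2 -
    rcases Nat.eq_zero_or_pos (finrank ℤ W) with h0 | h0
    · rw [h0] at hW3
      refine hc2.trans ((Nat.mul_le_mul hE4 hW3).trans ?_)
      rw [← pow_add]
      exact Nat.pow_le_pow_right hp.pos (by omega)
    · refine hc2.trans ((Nat.mul_le_mul hE4 (hW4 hp2 h0)).trans ?_)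
      rw [← pow_add]
      exact Nat.pow_le_pow_right hp.pos (by omega)

end Pool.Agent.Lib.MP_b7b920_al_h6
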