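import Pool.Agent.Lib.MP_b7b920_al_h6.Step
import Pool.Agent.Lib.MP_b7b920_al_h6.CardMul

set_option autoImplicit false

/-!
# Auxiliary lemmas for R' (MP_b7b920_al, helper6)
-/

namespace Pool.Agent.Lib.MP_b7b920_al_h6

open Module Pool.MP_b7b920_al.H19

section Groups

theorem finite_of_inf {Δ : Type*} [Group Δ] (K N : Subgroup Δ) [N.FiniteIndex]
    (h : Finite ↥(K ⊓ N)) : Finite K := by
  have h2 : Finite (N.subgroupOf K) := by
    have : Finite ↥((N ⊓ K).subgroupOf K) := by
      have hinj : Function.Injective (fun x : ↥((N ⊓ K).subgroupOf K) =>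
          (⟨x.1.1, x.1.2, (Subgroup.mem_inf.mp (Subgroup.mem_subgroupOf.mp x.2)).1⟩ :
            ↥(K ⊓ N))) := by
        intro x y hxy
        have := congrArg (fun t : ↥(K ⊓ N) => (t : Δ)) hxy
        exact Subtype.ext (Subtype.ext this)
      exact Finite.of_injective _ hinj
    rwa [Subgroup.inf_subgroupOf_right] at this
  apply Nat.finite_of_card_ne_zero
  rw [← Subgroup.card_mul_index (N.subgroupOf K)]
  exact mul_ne_zero Nat.card_pos.ne' Subgroup.FiniteIndex.index_ne_zero

theorem exists_central (p : ℕ) [Fact p.Prime] {G : Type*} [Group G] (C : Subgroup G) [C.Normal]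
    [C.FiniteIndex] (hC : C ≠ ⊤) (hp : ∀ g : G, ∃ k, g ^ (p ^ k) ∈ C) :
    ∃ z : G, z ∉ C ∧ z ^ p ∈ C ∧ ∀ g, z * g * z⁻¹ * g⁻¹ ∈ C := by
  have hQ : IsPGroup p (G ⧸ C) := by
    intro q
    obtain ⟨g, rfl⟩ := QuotientGroup.mk_surjective q
    obtain ⟨k, hk⟩ := hp g
    exact ⟨k, by rw [← QuotientGroup.mk_pow]; exact (QuotientGroup.eq_one_iff _).mpr hk⟩
  haveI : Finite (G ⧸ C) := inferInstance
  haveI : Nontrivial (G ⧸ C) := by
    by_contra h
    rw [not_nontrivial_iff_subsingleton] at h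
    apply hC
    rw [eq_top_iff]
    intro g _
    exact (QuotientGroup.eq_one_iff _).mp (Subsingleton.elim _ _)
  haveI := hQ.center_nontrivial
  have hd : p ∣ Nat.card (Subgroup.center (G ⧸ C)) := by
    rcases (hQ.to_subgroup (Subgroup.center (G ⧸ C))).card_eq_or_dvd with h | h
    · exact absurd h (Nat.ne_of_gt Finite.one_lt_card)
    · exact h
  obtain ⟨c, hc⟩ := exists_prime_orderOf_dvd_card' (G := Subgroup.center (G ⧸ C)) p hd
  obtain ⟨z, hz⟩ := QuotientGroup.mk_surjective (c : G ⧸ C)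
  refine ⟨z, ?_, ?_, ?_⟩
  · intro hzC
    have h1 : (c : G ⧸ C) = 1 := by rw [← hz]; exact (QuotientGroup.eq_one_iff _).mpr hzC
    have h2 : c = 1 := Subtype.ext h1
    rw [h2, orderOf_one] at hc
    exact (Fact.out : p.Prime).one_lt.ne hc
  · have h1 : (c : G ⧸ C) ^ p = 1 := by
      rw [← hc]
      exact_mod_cast congrArg Subtype.val (pow_orderOf_eq_one c)
    rw [← hz, ← QuotientGroup.mk_pow] at h1
    exact (QuotientGroup.eq_one_iff _).mp h1
  · intro g
    have h1 := Subgroup.mem_center_iff.mp c.2 (g : G ⧸ C)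
    rw [← hz] at h1
    have h2 : ((z * g * z⁻¹ * g⁻¹ : G) : G ⧸ C) = 1 := by
      rw [QuotientGroup.mk_mul, QuotientGroup.mk_mul, QuotientGroup.mk_mul, QuotientGroup.mk_inv,
        QuotientGroup.mk_inv, ← h1]
      group
    exact (QuotientGroup.eq_one_iff _).mp h2

end Groups

section Theta

variable {Δ : Type*} [Group Δ] {T : Type*} [AddCommGroup T] [DistribMulAction Δ T]

/-- `t ↦ z • t - t` -/
def th (T : Type*) [AddCommGroup T] [DistribMulAction Δ T] (z : Δ) : T →+ T :=
  DistribSMul.toAddMonoidHom T z - AddMonoidHom.id T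

@[simp] theorem th_apply (z : Δ) (t : T) : th T z t = z • t - t := rfl

/-- norm -/
def Nm (T : Type*) [AddCommGroup T] [DistribMulAction Δ T] (p : ℕ) (z : Δ) : T →+ T :=
  ∑ i ∈ Finset.range p, DistribSMul.toAddMonoidHom T (z ^ i)

theorem Nm_apply (p : ℕ) (z : Δ) (t : T) : Nm T p z t = ∑ i ∈ Finset.range p, z ^ i • t := by
  simp [Nm, AddMonoidHom.finsetSum_apply]

theorem Nm_succ (p : ℕ) (z : Δ) (t : T) : Nm T (p + 1) z t = Nm T p z t + z ^ p • t := by
  rw [Nm_apply, Nm_apply, Finset.sum_range_succ]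

theorem th_Nm (i : ℕ) (z : Δ) (t : T) : th T z (Nm T i z t) = z ^ i • t - t := by
  induction i with
  | zero => simp [Nm]
  | succ i ih =>
    rw [Nm_succ, map_add, ih, th_apply, smul_smul, ← pow_succ']
    abel

theorem Nm_th (i : ℕ) (z : Δ) (t : T) : Nm T i z (th T z t) = z ^ i • t - t := by
  induction i with
  | zero => simp [Nm]
  | succ i ih =>
    rw [Nm_succ, ih, th_apply, smul_sub, smul_smul, ← pow_succ]
    abel

/-- double norm sum -/
def Dn (T : Type*) [AddCommGroup T] [DistribMulAction Δ T] (p : ℕ) (z : Δ) : T →+ T :=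
  ∑ i ∈ Finset.range p, Nm T i z

theorem Dn_apply (p : ℕ) (z : Δ) (t : T) : Dn T p z t = ∑ i ∈ Finset.range p, Nm T i z t := by
  simp [Dn, AddMonoidHom.finsetSum_apply]

theorem Nm_eq (p : ℕ) (z : Δ) (t : T) : Nm T p z t = p • t + th T z (Dn T p z t) := by
  rw [Dn_apply, map_sum, Nm_apply]
  have : ∀ i ∈ Finset.range p, z ^ i • t = t + th T z (Nm T i z t) := by
    intro i _
    rw [th_Nm]; abel
  rw [Finset.sum_congr rfl this, Finset.sum_add_distrib]
  simp

theorem Nm_mem {U : AddSubgroup T} {z : Δ} (hz : ∀ t ∈ U, z • t ∈ U) (i : ℕ) :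
    ∀ t ∈ U, Nm T i z t ∈ U := by
  intro t ht
  have hpow : ∀ j, z ^ j • t ∈ U := by
    intro j
    induction j with
    | zero => simpa using ht
    | succ j ih => rw [pow_succ', mul_smul]; exact hz _ ih
  rw [Nm_apply]
  exact AddSubgroup.sum_mem _ fun j _ => hpow j

theorem Dn_mem {U : AddSubgroup T} {z : Δ} (hz : ∀ t ∈ U, z • t ∈ U) (i : ℕ) :
    ∀ t ∈ U, Dn T i z t ∈ U := by
  intro t ht
  rw [Dn_apply]
  exact AddSubgroup.sum_mem _ fun j _ => Nm_mem hz j t ht

/-- the key congruence for odd `p` -/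
theorem odd_lemma [Module.Free ℤ T] {p : ℕ} (hp : p.Prime) (hp2 : p ≠ 2) (W : AddSubgroup T)
    (z : Δ) (hz : ∀ w ∈ W, ∃ w' ∈ W, th T z w = p • w') (hN : ∀ w ∈ W, Nm T p z w = 0) :
    ∀ w ∈ W, ∃ w' ∈ W, w = p • w' := by
  intro w hw
  have hzW : ∀ t ∈ W, z • t ∈ W := by
    intro t ht
    obtain ⟨w', hw', h⟩ := hz t ht
    have : z • t = t + p • w' := by rw [← h, th_apply]; abel
    rw [this]
    exact W.add_mem ht (W.nsmul_mem hw' p)
  -- `z^i w = w + i θ w + p² w'`
  have key : ∀ i : ℕ, ∃ w' ∈ W, z ^ i • w = w + i • th T z w + (p * p) • w' := by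
    intro i
    induction i with
    | zero => exact ⟨0, W.zero_mem, by simp⟩
    | succ i ih =>
      obtain ⟨w', hw', h⟩ := ih
      obtain ⟨w1, hw1, h1⟩ := hz w hw
      obtain ⟨w2, hw2, h2⟩ := hz w1 hw1
      refine ⟨i • w2 + z • w', W.add_mem (W.nsmul_mem hw2 i) (hzW _ hw'), ?_⟩
      have e1 : z • (w + i • th T z w + (p * p) • w') =
          z • w + i • (z • th T z w) + (p * p) • (z • w') := by
        rw [smul_add, smul_add]
        congr 1
        · congr 1
          exact map_nsmul (DistribSMul.toAddMonoidHom T z) i (th T z w)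
        · exact map_nsmul (DistribSMul.toAddMonoidHom T z) (p * p) w'
      have e2 : z • th T z w = th T z w + (p * p) • w2 := by
        have : z • th T z w = th T z w + th T z (th T z w) := by
          rw [th_apply z (th T z w)]; abel
        rw [this]
        congr 1
        rw [h1, map_nsmul, h2, smul_smul]
      have e3 : z • w = w + th T z w := by rw [th_apply]; abel
      rw [pow_succ', mul_smul, h, e1, e2, e3]
      simp only [smul_add, add_smul, one_smul, smul_smul]
      rw [mul_comm i (p * p)]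
      abel
  -- sum
  have hsum : ∀ n : ℕ, ∃ w' ∈ W,
      Nm T n z w = n • w + (∑ i ∈ Finset.range n, i) • th T z w + (p * p) • w' := by
    intro n
    induction n with
    | zero => exact ⟨0, W.zero_mem, by simp [Nm]⟩
    | succ n ih =>
      obtain ⟨w', hw', h⟩ := ih
      obtain ⟨w1, hw1, h1⟩ := key n
      refine ⟨w' + w1, W.add_mem hw' hw1, ?_⟩
      rw [Nm_succ, h, h1, Finset.sum_range_succ]
      simp only [smul_add, add_smul, one_smul]
      abel
  obtain ⟨w', hw', h⟩ := hsum p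
  rw [hN w hw] at h
  obtain ⟨w1, hw1, h1⟩ := hz w hw
  have hodd : p % 2 = 1 := (hp.eq_two_or_odd).resolve_left hp2
  have hs : ∑ i ∈ Finset.range p, i = p * ((p - 1) / 2) := by
    rw [Finset.sum_range_id, Nat.mul_div_assoc]
    omega
  rw [hs, h1, smul_smul] at h
  have hcoef : p * ((p - 1) / 2) * p = p * (((p - 1) / 2) * p) := by ring
  have h3 : (p : ℤ) • (w + ((p - 1) / 2 * p) • w1 + p • w') = 0 := by
    rw [natCast_zsmul]
    rw [smul_add, smul_add, smul_smul, smul_smul, ← hcoef]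
    exact h.symm
  have h4 : w + ((p - 1) / 2 * p) • w1 + p • w' = 0 := by
    have hp0 : (p : ℤ) ≠ 0 := by exact_mod_cast hp.ne_zero
    exact (smul_eq_zero.mp h3).resolve_left hp0
  refine ⟨-(((p - 1) / 2) • w1 + w'), W.neg_mem (W.add_mem (W.nsmul_mem hw1 _) hw'), ?_⟩
  have h5 : w = -(((p - 1) / 2 * p) • w1 + p • w') := by
    rw [add_assoc] at h4
    exact eq_neg_of_add_eq_zero_left h4
  rw [h5, smul_neg, smul_add, smul_smul, mul_comm p]

end Theta

end Pool.Agent.Lib.MP_b7b920_al_h6
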