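import Pool.Agent.Lib.MP_b7b920_al_h6.Count
import Pool.Agent.Lib.MP_b7b920_al_h19.Deriv

set_option autoImplicit false

/-!
# The counting step (MP_b7b920_al, helper6)
-/

namespace Pool.Agent.Lib.MP_b7b920_al_h6

open Module Pool.MP_b7b920_al.H19

section Der

variable {Δ : Type*} [Group Δ] {T : Type*} [AddCommGroup T] [DistribMulAction Δ T]

/-- If `θ` shifts the values of `λ` by commutator-like elements, the homomorphisms vanishing on the
kernel of the derivation `λ` are few. -/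
theorem count_step {p : ℕ} [Fact p.Prime] (l : Δ → T) (hl : IsDer l) (W : AddSubgroup T)
    (hW : AddSubgroup.closure (Set.range l) = W) (θ : T →+ T)
    (F : Set (Δ →* Multiplicative (ZMod p)))
    (h1 : ∀ f ∈ F, ∀ x, l x = 0 → f x = 1)
    (h2 : ∀ g : Δ, ∃ c : Δ, (∀ t ∈ W, c • t = t) ∧ l c = θ (l g) ∧ ∀ f ∈ F, f c = 1)
    (hfin : (W.map θ).relIndex W ≠ 0) :
    Finite F ∧ Nat.card F ≤ (W.map θ).relIndex W := by
  classical
  have hlW : ∀ x, l x ∈ W := fun x => hW ▸ AddSubgroup.subset_closure ⟨x, rfl⟩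
  -- every element of `W` can be shifted
  have h3 : ∀ w ∈ W, ∃ c : Δ, (∀ t ∈ W, c • t = t) ∧ l c = θ w ∧ ∀ f ∈ F, f c = 1 := by
    intro w hw
    rw [← hW] at hw
    induction hw using AddSubgroup.closure_induction with
    | mem x hx => obtain ⟨g, rfl⟩ := hx; exact h2 g
    | zero => exact ⟨1, fun t _ => one_smul _ t, by rw [hl.one, map_zero], fun f _ => map_one f⟩
    | add x y _ _ hx hy =>
      obtain ⟨c, hc1, hc2, hc3⟩ := hx
      obtain ⟨d, hd1, hd2, hd3⟩ := hy
      refine ⟨c * d, fun t ht => by rw [mul_smul, hd1 t ht, hc1 t ht], ?_, fun f hf => by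
        rw [map_mul, hc3 f hf, hd3 f hf, one_mul]⟩
      rw [hl, hc1 _ (hlW d), hc2, hd2, map_add]
    | neg x _ hx =>
      obtain ⟨c, hc1, hc2, hc3⟩ := hx
      have hinv : ∀ t ∈ W, c⁻¹ • t = t := fun t ht => by
        rw [inv_smul_eq_iff, hc1 t ht]
      refine ⟨c⁻¹, hinv, ?_, fun f hf => by rw [map_inv, hc3 f hf, inv_one]⟩
      rw [hl.inv, hinv _ (hlW c), hc2, map_neg]
  have hne : ((W.map θ).addSubgroupOf W).index ≠ 0 := hfin
  haveI : ((W.map θ).addSubgroupOf W).FiniteIndex := ⟨hne⟩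
  haveI : Finite (W ⧸ (W.map θ).addSubgroupOf W) := AddSubgroup.finite_quotient_of_finiteIndex
  let q : Δ → W ⧸ (W.map θ).addSubgroupOf W := fun x => QuotientAddGroup.mk ⟨l x, hlW x⟩
  have := card_hom_le (p := p) q F (by
    intro f hf x y hxy
    have hxy' := QuotientAddGroup.eq.mp hxy
    rw [AddSubgroup.mem_addSubgroupOf] at hxy'
    obtain ⟨w, hw, hw'⟩ := hxy'
    obtain ⟨c, hc1, hc2, hc3⟩ := h3 w hw
    have hw'' : θ w = -l x + l y := hw'
    have e : l (c * x) = l y := by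
      rw [hl, hc1 _ (hlW x), hc2, hw'']; abel
    have e2 : l ((c * x)⁻¹ * y) = 0 := by rw [hl.inv_mul, e, sub_self, smul_zero]
    have := h1 f hf _ e2
    rw [map_mul, map_inv, map_mul, hc3 f hf, one_mul] at this
    exact (inv_mul_eq_one.mp this))
  exact this

end Der

section Index

variable {T : Type*} [AddCommGroup T] [Module.Free ℤ T] [Module.Finite ℤ T]

instance freeSub (W : AddSubgroup T) : Module.Free ℤ ↥W :=
  inferInstanceAs (Module.Free ℤ ↥(AddSubgroup.toIntSubmodule W))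

instance finSub (W : AddSubgroup T) : Module.Finite ℤ ↥W :=
  inferInstanceAs (Module.Finite ℤ ↥(AddSubgroup.toIntSubmodule W))

theorem relIndex_nsmul (p : ℕ) (W : AddSubgroup T) :
    (W.map (nsmulAddMonoidHom (α := T) p)).relIndex W = p ^ finrank ℤ W :=
  AddSubgroup.relIndex_map_nsmul p W

/-- If `pW ≤ θW ≤ W` then `|W/θW|` divides `p ^ rank W`. -/
theorem relIndex_dvd (p : ℕ) (W : AddSubgroup T) (θ : T →+ T) (h1 : W.map θ ≤ W)
    (h2 : W.map (nsmulAddMonoidHom (α := T) p) ≤ W.map θ) :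
    (W.map θ).relIndex W ∣ p ^ finrank ℤ W := by
  rw [← relIndex_nsmul p W]
  rw [← AddSubgroup.relIndex_mul_relIndex _ _ _ h2 h1]
  exact dvd_mul_left _ _

theorem finrank_mono' {W W' : AddSubgroup T} (h : W ≤ W') : finrank ℤ W ≤ finrank ℤ W' :=
  Submodule.finrank_mono (s := AddSubgroup.toIntSubmodule W) (t := AddSubgroup.toIntSubmodule W') h

/-- Rank-nullity for an additive endomorphism on a subgroup. -/
theorem rank_nullity (W : AddSubgroup T) (θ : T →+ T) :
    finrank ℤ (W.map θ) + finrank ℤ ↥(W ⊓ θ.ker) = finrank ℤ W := by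
  let f : ↥W →ₗ[ℤ] T := (θ.toIntLinearMap).comp (AddSubgroup.toIntSubmodule W).subtype
  have h := LinearMap.rank_range_add_rank_ker f
  have h1 : finrank ℤ (LinearMap.range f) = finrank ℤ (W.map θ) := by
    have e : LinearMap.range f = AddSubgroup.toIntSubmodule (W.map θ) := by
      ext x
      simp only [LinearMap.mem_range]
      constructor
      · rintro ⟨y, rfl⟩
        exact ⟨y, y.2, rfl⟩
      · rintro ⟨y, hy, rfl⟩
        exact ⟨⟨y, hy⟩, rfl⟩
    rw [e]; rfl
  have h2 : finrank ℤ (LinearMap.ker f) = finrank ℤ ↥(W ⊓ θ.ker) := by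
    let e : LinearMap.ker f ≃+ ↥(W ⊓ θ.ker) :=
      { toFun := fun x => ⟨x.1.1, ⟨x.1.2, x.2⟩⟩
        invFun := fun x => ⟨⟨x.1, x.2.1⟩, x.2.2⟩
        left_inv := fun x => rfl
        right_inv := fun x => rfl
        map_add' := fun x y => rfl }
    exact LinearEquiv.finrank_eq e.toIntLinearEquiv
  rw [← h1, ← h2]
  have h3 : Module.rank ℤ (LinearMap.range f) = (finrank ℤ (LinearMap.range f) : Cardinal) :=
    (finrank_eq_rank ℤ _).symm
  have h4 : Module.rank ℤ (LinearMap.ker f) = (finrank ℤ (LinearMap.ker f) : Cardinal) :=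
    (finrank_eq_rank ℤ _).symm
  have h5 : Module.rank ℤ ↥W = (finrank ℤ ↥W : Cardinal) := (finrank_eq_rank ℤ _).symm
  rw [h3, h4, h5] at h
  exact_mod_cast h

end Index

end Pool.Agent.Lib.MP_b7b920_al_h6
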